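import Pool.Agent.Helper45.RK.GoalsG
import Pool.Agent.Helper56.SP.ADN

/-! Packet ADNK: `ad V` is nilpotent. -/

open Complex Metric Set Filter Topology
open scoped ContDiff ComplexConjugate

namespace Pool.Agent.Helper69.RK

open Pool.Agent.Helper95.Lin Pool.Agent.Helper10.SP Pool.Agent.Helper45.SP
open Pool.Agent.Helper45.RK Pool.Agent.Helper95.RK Pool.Agent.Helper56.SP

theorem adnk (hLNRM : S_LNRM) (hLNCMP : S_LNCMP) (hLAD : S_LAD) (hLADAPX : S_LADAPX)
    (hNILT : S_NILTK) (hANG : S_ANGK) (hNILLIM : S_NILLIM) : S_ADNK := by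
  intro b k₀ z₀ r A hP 𝔤 _ _ Φ hΦ x
  have hA := hP.toLGrpK.lgrp
  have hr : 0 < r := hA.pos
  have := hΦ.fin
  have hin : ∀ y, InLL z₀ r (bs '' A) (Φ y) := fun y => (hΦ.range _).2 ⟨y, rfl⟩
  -- the norm
  let ν : Seminorm ℝ 𝔤 := Seminorm.of (fun y => nL z₀ r (Φ y))
    (fun y y' => by
      rw [map_add]
      exact (hLNRM hr _ _ (hin y) (hin y')).2.2.2.2.1)
    (fun c y => by
      rw [map_smul, Real.norm_eq_abs]
      exact (hLNRM hr _ _ (hin y) (hin y)).2.2.2.2.2 c)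
  have hνdef : ∀ y, ν y = nL z₀ r (Φ y) := fun y => rfl
  have hν0 : ∀ y, ν y = 0 → y = 0 := by
    intro y hy
    have h1 : Φ y = 0 := (hLNRM hr _ _ (hin y) (hin y)).2.2.2.1 hy
    exact hΦ.inj (by rw [h1, map_zero])
  obtain ⟨C, hC, hcmp⟩ := hLNCMP hA z₀ (r / 4) (by linarith) (ball_subset_ball (by linarith))
    (r / 2) (by linarith)
  have hsmall : ∀ y : 𝔤, ∀ s : ℝ, 0 ≤ s → (∀ z ∈ ball z₀ (r / 4), ‖Φ y z‖ ≤ s) → ν y ≤ C * s := by
    intro y s hs h
    exact (hLNRM hr _ _ (hin y) (hin y)).2.1 (C * s) (mul_nonneg hC hs) (hcmp _ (hin y) s h)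
  set V := Φ x with hV
  have hVd : DifferentiableOn ℂ V (ball z₀ r) := (hin x).1
  set M := nL z₀ r V with hM
  have hM0 : 0 ≤ M := (hLNRM hr _ _ (hin x) (hin x)).2.2.1
  have hVM : ∀ z ∈ ball z₀ (r / 2), ‖V z‖ ≤ M := (hLNRM hr _ _ (hin x) (hin x)).1
  -- the constants
  obtain ⟨η₁, hη₁, HLAD⟩ := hLAD hA
  obtain ⟨η₂, hη₂, HNILT⟩ := hNILT hP hΦ
  obtain ⟨ε₀, hε₀, σ₀, hσ₀, H0⟩ := hLADAPX z₀ r hr V (fun _ => 0) hVd (differentiableOn_const _)
    (r / 4) (by linarith) 1 one_pos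
  set η := min η₁ η₂ with hη
  have hηpos : 0 < η := lt_min hη₁ hη₂
  set c := min (min 1 (η / (1 + M))) (min (min ε₀ σ₀) η₂) with hcdef
  have hcpos : 0 < c := lt_min (lt_min one_pos (div_pos hηpos (by linarith)))
    (lt_min (lt_min hε₀ hσ₀) hη₂)
  have hc1 : c ≤ 1 := (min_le_left _ _).trans (min_le_left _ _)
  have hc2 : c ≤ η / (1 + M) := (min_le_left _ _).trans (min_le_right _ _)
  have hc3 : c ≤ ε₀ := (min_le_right _ _).trans ((min_le_left _ _).trans (min_le_left _ _))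
  have hc4 : c ≤ σ₀ := (min_le_right _ _).trans ((min_le_left _ _).trans (min_le_right _ _))
  have hc5 : c ≤ η₂ := (min_le_right _ _).trans (min_le_right _ _)
  -- one step
  have key : ∀ e : ℝ, 0 < e → e ≤ c → ∃ σ : ℝ, 0 < σ ∧ σ < e ∧ ∃ t ∈ A,
      (∀ z ∈ ball z₀ (r / 2), ‖t.g z - z - σ • V z‖ ≤ e * σ) ∧ ∃ N : 𝔤 →ₗ[ℝ] 𝔤,
      IsNilpotent N ∧ ∀ y, AdR z₀ r t.g (Φ y) (Φ (y + N y)) := by
    intro e he hec
    obtain ⟨σ, hσ, hσe, t, ht, htV, hta⟩ := hANG hP V (hin x) (r / 2) (by linarith) e he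
    refine ⟨σ, hσ, hσe, t, ht, htV, ?_⟩
    have hnear : Near z₀ (r / 2) t.g η := by
      intro z hz
      have h1 := htV z hz
      have h2 := hVM z hz
      have h3 : ‖t.g z - z‖ ≤ e * σ + σ * M := by
        calc ‖t.g z - z‖ = ‖(t.g z - z - σ • V z) + σ • V z‖ := by congr 1; abel
          _ ≤ ‖t.g z - z - σ • V z‖ + ‖σ • V z‖ := norm_add_le _ _
          _ ≤ e * σ + σ * M := by
              refine add_le_add h1 ?_
              rw [norm_smul, Real.norm_eq_abs, abs_of_pos hσ]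
              exact mul_le_mul_of_nonneg_left h2 hσ.le
      have h4 : e * σ + σ * M ≤ c * (1 + M) := by
        have : σ * (e + M) ≤ c * (1 + M) := by
          refine mul_le_mul (hσe.le.trans hec) ?_ (by positivity) hcpos.le
          linarith
        linarith
      have h5 : c * (1 + M) ≤ η := by
        rwa [le_div_iff₀ (by linarith)] at hc2
      linarith
    have hn1 : Near z₀ (r / 2) t.g η₁ := fun z hz => (hnear z hz).trans (min_le_left _ _)
    have hn2 : Near z₀ (r / 2) t.g η₂ := fun z hz => (hnear z hz).trans (min_le_right _ _)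
    -- uniqueness
    have huniq0 : ∀ y : 𝔤, AdR z₀ r t.g (fun _ => 0) (Φ y) → y = 0 := by
      intro y hy
      have h1 : ∀ z ∈ ball z₀ (r / 4), ‖Φ y z‖ ≤ 0 := by
        intro z hz
        by_contra hne
        push Not at hne
        obtain ⟨n, hn⟩ := exists_nat_gt (σ / ‖Φ y z‖)
        have h2 : AdR z₀ r t.g (fun _ => 0) ((n : ℝ) • Φ y) := by
          have := AdR_smul (n : ℝ) hy
          have h0 : ((n : ℝ) • (fun _ => 0 : Cn b → Cn b)) = fun _ => 0 := by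
            funext w
            simp
          rwa [h0] at this
        have h3 := H0 σ hσ (hσe.trans_le (hec.trans hc4)) t.g (hA.g_holo (bs t) ⟨t, ht, rfl⟩) (fun w hw =>
          (htV w hw).trans (mul_le_mul_of_nonneg_right (hec.trans hc3) hσ.le)) _ h2 z hz
        have h4 : brV V (fun _ => 0) z = 0 := by
          unfold brV
          simp
        rw [h4, smul_zero, add_zero, sub_zero, Pi.smul_apply, norm_smul, one_mul,
          Real.norm_natCast] at h3
        rw [div_lt_iff₀ hne] at hn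
        linarith
      have h2 := hsmall y 0 le_rfl h1
      rw [mul_zero] at h2
      exact hν0 y (le_antisymm h2 (apply_nonneg ν y))
    have huniq : ∀ (W : Cn b → Cn b) (y y' : 𝔤), AdR z₀ r t.g W (Φ y) → AdR z₀ r t.g W (Φ y') →
        y = y' := by
      intro W y y' h1 h2
      have h3 := AdR_sub h1 h2
      rw [← map_sub, sub_self] at h3
      exact sub_eq_zero.1 (huniq0 _ h3)
    have hex : ∀ y : 𝔤, ∃ y' : 𝔤, AdR z₀ r t.g (Φ y) (Φ y') := by
      intro y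
      obtain ⟨W', hW', hAd⟩ := HLAD (bs t) ⟨t, ht, rfl⟩ hn1 (Φ y) (hin y)
      obtain ⟨y', rfl⟩ := (hΦ.range _).1 hW'
      exact ⟨y', hAd⟩
    choose L hL using hex
    let L' : 𝔤 →ₗ[ℝ] 𝔤 :=
      { toFun := L
        map_add' := fun y y' => by
          refine huniq (Φ (y + y')) _ _ (hL _) ?_
          rw [map_add, map_add]
          exact AdR_add (hL y) (hL y')
        map_smul' := fun a y => by
          refine huniq (Φ (a • y)) _ _ (hL _) ?_
          rw [map_smul, RingHom.id_apply, map_smul]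
          exact AdR_smul a (hL y) }
    have hN : ∀ y, AdR z₀ r t.g (Φ y) (Φ (y + (L' - (LinearMap.id : 𝔤 →ₗ[ℝ] 𝔤)) y)) := by
      intro y
      have h1 : y + (L' - (LinearMap.id : 𝔤 →ₗ[ℝ] 𝔤)) y = L y := by
        rw [LinearMap.sub_apply, LinearMap.id_apply]
        exact add_sub_cancel y (L y)
      rw [h1]
      exact hL y
    exact ⟨L' - (LinearMap.id : 𝔤 →ₗ[ℝ] 𝔤), HNILT t ht hn2 (hta.mono (hec.trans hc5)) _ hN, hN⟩
  have hpos : ∀ k : ℕ, 0 < c / (k + 1) := fun k => div_pos hcpos (by positivity)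
  have hle : ∀ k : ℕ, c / (k + 1) ≤ c := fun k =>
    div_le_self hcpos.le (by have : (0 : ℝ) ≤ k := Nat.cast_nonneg k; linarith)
  choose σ hσ hσe t ht htV N hNn hNA using fun k : ℕ => key (c / (k + 1)) (hpos k) (hle k)
  have hlim : Tendsto (fun k : ℕ => c / ((k : ℝ) + 1)) atTop (𝓝 0) := by
    have := (tendsto_one_div_add_atTop_nhds_zero_nat (𝕜 := ℝ)).const_mul c
    rw [mul_zero] at this
    refine this.congr fun k => ?_
    rw [mul_one_div]
  have hT : IsNilpotent (-(LieAlgebra.ad ℝ 𝔤 x : 𝔤 →ₗ[ℝ] 𝔤)) := by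
    refine hNILLIM 𝔤 ν hν0 (fun k => (σ k)⁻¹ • N k) _ (fun k => (hNn k).smul _) fun y => ?_
    rw [Metric.tendsto_atTop]
    intro δ hδ
    obtain ⟨ε', hε', σ', hσ', H⟩ := hLADAPX z₀ r hr V (Φ y) hVd (hin y).1 (r / 4) (by linarith)
      (δ / (2 * (C + 1))) (by positivity)
    have hev := (hlim.eventually (gt_mem_nhds (lt_min hε' hσ'))).exists_forall_of_atTop
    obtain ⟨K, hK⟩ := hev
    refine ⟨K, fun k hk => ?_⟩
    have hk1 := hK k hk
    have hk2 : c / ((k : ℝ) + 1) < ε' := hk1.trans_le (min_le_left _ _)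
    have hk3 : c / ((k : ℝ) + 1) < σ' := hk1.trans_le (min_le_right _ _)
    have h1 := H (σ k) (hσ k) ((hσe k).trans hk3) (t k).g (hA.g_holo (bs (t k)) ⟨t k, ht k, rfl⟩)
      (fun z hz => (htV k z hz).trans (mul_le_mul_of_nonneg_right hk2.le (hσ k).le)) _ (hNA k y)
    have hσk := hσ k
    have h2 : ∀ z ∈ ball z₀ (r / 4), ‖Φ (((σ k)⁻¹ • N k) y -
        (-(LieAlgebra.ad ℝ 𝔤 x : 𝔤 →ₗ[ℝ] 𝔤)) y) z‖ ≤ δ / (2 * (C + 1)) := by
      intro z hz
      have h3 := h1 z hz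
      have h4 : Φ (((σ k)⁻¹ • N k) y - (-(LieAlgebra.ad ℝ 𝔤 x : 𝔤 →ₗ[ℝ] 𝔤)) y) z =
          (σ k)⁻¹ • (Φ (y + N k y) z - Φ y z + σ k • brV V (Φ y) z) := by
        have h5 : ((σ k)⁻¹ • N k) y - (-(LieAlgebra.ad ℝ 𝔤 x : 𝔤 →ₗ[ℝ] 𝔤)) y =
            (σ k)⁻¹ • N k y + ⁅x, y⁆ := by
          rw [LinearMap.smul_apply, LinearMap.neg_apply, sub_neg_eq_add]
          rfl
        rw [h5, map_add, map_add, map_smul, hΦ.br, Pi.add_apply, Pi.add_apply, Pi.smul_apply,
          add_sub_cancel_left, smul_add, smul_smul, inv_mul_cancel₀ hσk.ne', one_smul]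
      rw [h4, norm_smul, norm_inv, Real.norm_eq_abs, abs_of_pos hσk, inv_mul_le_iff₀ hσk]
      rw [mul_comm (σ k)]
      exact h3
    have h3 := hsmall _ _ (by positivity) h2
    rw [Real.dist_eq, sub_zero, abs_of_nonneg (apply_nonneg ν _)]
    refine h3.trans_lt ?_
    rw [mul_div_assoc', div_lt_iff₀ (by positivity)]
    nlinarith
  have := hT.neg
  rwa [neg_neg] at this

end Pool.Agent.Helper69.RK
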